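import Pool.Agent.Lib.LUC.N2
import Pool.Agent.Lib.LCD.P7

/-!
# The formal form of log uniformization, with the function field case as a black box

`BB k N`: the real valuations of the function fields of transcendence degree at most `N` over `k`
are log uniformizable. Then so are the real valuations of the complete local domains of dimension
`m` whose residue field is finitely generated of transcendence degree `c` over `k`, `c + m ≤ N`.
-/

set_option autoImplicit false

namespace Pool.Agent.ALLh81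

open IsLocalRing
open Pool.Agent.H15JM (RVal)
open Pool.Agent.LU1 (VPos)
open Pool.Agent.LU2 (IsR1 IndVal IndRes Rel vring rcomap rel_vring)
open Pool.Agent.LU2G (LUr)
open Pool.Agent.LUC
open Pool.Agent.LCD
open Polynomial

universe u

/-- The real valuations of the function fields of transcendence degree at most `N` over `k` are
log uniformizable. -/
def BB (k : Type u) [Field k] (N : ℕ) : Prop :=
  ∀ (K : Type u) [Field K] [Algebra k K], (⊤ : IntermediateField k K).FG →
    Algebra.trdeg k K ≤ (N : Cardinal) →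
    ∀ V : ValuationSubring K, (∀ c : k, algebraMap k K c ∈ V) → IsR1 V → LUr k V

section Coeff

variable {Ω : Type u} [Field Ω] {w : RVal Ω} {S : Subring Ω} {m e q : ℕ} {x : Fin m → Ω}
  {t : Fin e → Ω} {K₀ K' : Subfield Ω} {B : Finset Ω} {α : Fin q → Ω} {u : Ω} {H : Polynomial Ω}
  {k κ : Type u} [Field k] [Field κ] [Algebra k κ] [Algebra k Ω] [Algebra κ Ω]
  [IsScalarTower k κ Ω]

/-- `Setup.lus_eq2` with the black box `BB` in the place of the bound on the defect. -/
theorem lus_bb [Algebra.EssFiniteType k κ] {c N : ℕ} (hc : Algebra.trdeg k κ ≤ (c : Cardinal))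
    (hN : c + (m + e) ≤ N) (hBB : BB k N)
    (h : Setup w (algebraMap κ Ω).range S x t K₀ K' B α u H)
    (hpos : ∃ c ∈ K', c ≠ 0 ∧ 0 < w c) : LUs w (algebraMap κ Ω).range K₀ := by
  classical
  have hκ : ∀ c : κ, w.Ge 0 (algebraMap κ Ω c) := fun c =>
    h.base.ge _ (h.base.le ⟨c, rfl⟩)
  have hκ0 : ∀ c : κ, c ≠ 0 → algebraMap κ Ω c ≠ 0 ∧ w (algebraMap κ Ω c) = 0 := by
    intro c hc
    have h1 : algebraMap κ Ω c ≠ 0 := (_root_.map_ne_zero _).2 hc
    refine ⟨h1, le_antisymm ?_ (hκ c h1)⟩
    have h2 := hκ c⁻¹ ((_root_.map_ne_zero _).2 (inv_ne_zero hc))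
    rw [map_inv₀, w.map_inv h1] at h2
    linarith
  have hk : ∀ c : k, w.Ge 0 (algebraMap k Ω c) := by
    intro c
    rw [IsScalarTower.algebraMap_apply k κ Ω]
    exact hκ _
  have hκK : ∀ c : κ, algebraMap κ Ω c ∈ K₀ := fun c =>
    h.quo₀.1 _ (base_le_adj _ _ ⟨c, rfl⟩)
  let i0 : Algebra κ K₀ := ((algebraMap κ Ω).codRestrict K₀ hκK).toAlgebra
  have i1 : IsScalarTower κ K₀ Ω := IsScalarTower.of_algebraMap_eq fun c => rfl
  let i2 : Algebra k K₀ := ((algebraMap κ K₀).comp (algebraMap k κ)).toAlgebra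
  have i3 : IsScalarTower k κ K₀ := IsScalarTower.of_algebraMap_eq fun c => rfl
  have i4 : IsScalarTower k K₀ Ω := IsScalarTower.of_algebraMap_eq fun c => by
    rw [IsScalarTower.algebraMap_apply k κ Ω]
    rfl
  set V₀ : ValuationSubring K₀ := vring (rcomap w K₀.subtype) with hV₀
  have hkV : ∀ c : k, algebraMap k K₀ c ∈ V₀ := by
    intro c h0
    have h1 : ((algebraMap k K₀ c : K₀) : Ω) = algebraMap k Ω c :=
      (IsScalarTower.algebraMap_apply k K₀ Ω c).symm
    have h2 := hk c (by
      rw [← h1]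
      exact fun h => h0 (Subtype.ext h))
    rw [← h1] at h2
    exact h2
  -- rank one
  obtain ⟨c, hcK, hc0, hcw⟩ := hpos
  obtain ⟨c₀, hc₀, hc₀0, hc₀w, -⟩ := Cl.exists_val (h.cl c hcK) 0 hc0
  have hR : IsR1 V₀ := by
    refine isR1_vring _ (⟨c₀, hc₀⟩ : K₀) (fun h0 => hc₀0 (congrArg Subtype.val h0)) ?_
    change 0 < w c₀
    rw [hc₀w]
    exact hcw
  -- the transcendence degree
  have htr : Algebra.trdeg k K₀ ≤ (N : Cardinal) := by
    have h1 : Algebra.trdeg k κ + Algebra.trdeg κ K₀ = Algebra.trdeg k K₀ :=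
      trdeg_add_eq k κ (A := K₀)
    rw [← h1]
    refine (add_le_add hc h.trdeg_le).trans ?_
    exact_mod_cast hN
  have hfg : (⊤ : IntermediateField k K₀).FG := by
    have h1 : Algebra.EssFiniteType κ K₀ := IntermediateField.fg_top_iff.1 h.fg
    have h2 : Algebra.EssFiniteType k K₀ := Algebra.EssFiniteType.comp k κ K₀
    exact IntermediateField.fg_top_iff.2 h2
  have hL : LUrV k V₀ := lurV_of_lur (hBB K₀ hfg htr V₀ hkV hR)
  have hL' := LUrV.lus (w := w) (Ω := Ω) (V := V₀) (fun f => by
    rw [(rel_vring (rcomap w K₀.subtype)).mem_iff]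
    constructor
    · intro h1 h2
      exact h1 (by simpa using h2)
    · intro h1 h2
      exact h1 (by simpa using h2)) hkV hL
  have hr : (algebraMap K₀ Ω).fieldRange = K₀ := by
    ext f
    constructor
    · rintro ⟨y, rfl⟩
      exact y.2
    · intro hf
      exact ⟨⟨f, hf⟩, rfl⟩
  rw [hr] at hL'
  -- from `k` to `κ`
  obtain ⟨F, hF⟩ := (Algebra.essFiniteType_iff k κ).1 (inferInstance : Algebra.EssFiniteType k κ)
  refine hL'.base ?_ ?_ (F.image (algebraMap κ Ω)) ?_ ?_
  · rintro _ ⟨c, rfl⟩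
    exact ⟨algebraMap k κ c, (IsScalarTower.algebraMap_apply k κ Ω c).symm⟩
  · rintro _ ⟨c, rfl⟩
    exact hκ c
  · intro g hg
    obtain ⟨c, -, rfl⟩ := Finset.mem_image.1 hg
    exact ⟨c, rfl⟩
  · have key : ∀ c ∈ Algebra.adjoin k (F : Set κ), algebraMap κ Ω c ∈
        adj (algebraMap k Ω).range ((F.image (algebraMap κ Ω) : Finset Ω) : Set Ω) := by
      intro c hc
      induction hc using Algebra.adjoin_induction with
      | mem x hx => exact mem_adj (Finset.mem_coe.2 (Finset.mem_image_of_mem _ hx))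
      | algebraMap s =>
        rw [← IsScalarTower.algebraMap_apply k κ Ω]
        exact base_le_adj _ _ ⟨s, rfl⟩
      | add a b _ _ ha hb => rw [map_add]; exact add_mem ha hb
      | mul a b _ _ ha hb => rw [map_mul]; exact mul_mem ha hb
    rintro _ ⟨c, rfl⟩
    obtain ⟨t, ht, htu, hct⟩ := hF c
    obtain ⟨ht0, ht1⟩ := hκ0 t htu.ne_zero
    refine ⟨_, key _ hct, _, key _ ht, ht0, ht1, ?_⟩
    rw [map_mul, mul_div_cancel_right₀ _ ht0]

end Coeff

theorem lurV_bb {k κ S K : Type u} [Field k]
    [Field κ] [Algebra k κ] [Algebra.EssFiniteType k κ]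
    [CommRing S] [IsDomain S] [IsRegularLocalRing S] [Field K] [Algebra κ S] [Algebra S K]
    [Algebra κ K] [IsScalarTower κ S K] [FaithfulSMul S K] [Algebra (FractionRing S) K]
    [IsScalarTower S (FractionRing S) K] [Algebra.EssFiniteType S K]
    (hres : ∀ s : S, ∃ c : κ, s - algebraMap κ S c ∈ IsLocalRing.maximalIdeal S) {m : ℕ}
    (hdim : ringKrullDim S = m) (s : Set K)
    (hs : IsTranscendenceBasis (FractionRing S) ((↑) : s → K))
    (hsep : Algebra.IsSeparable (IntermediateField.adjoin (FractionRing S) s) K)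
    (V : ValuationSubring K) (hR : IsR1 V) (hS : ∀ s : S, algebraMap S K s ∈ V)
    (hmS : ∀ s ∈ IsLocalRing.maximalIdeal S, V.valuation (algebraMap S K s) < 1) {c N : ℕ}
    (hc : Algebra.trdeg k κ ≤ (c : Cardinal))
    (hN : Algebra.trdeg S K + ((c + m : ℕ) : Cardinal) ≤ (N : Cardinal)) (hBB : BB k N) :
    LUrV S V := by
  classical
  obtain ⟨v, w, hrel, hw, hV, hVpos, c', hc0, hcV⟩ := exists_entry V hR
  let Ω : Type u := AlgebraicClosure K
  let ι : K →+* Ω := algebraMap K Ω
  have hι0 : ∀ f : K, ι f ≠ 0 ↔ f ≠ 0 := fun f => (_root_.map_ne_zero ι)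
  have hinj : Function.Injective (algebraMap S Ω) := by
    rw [IsScalarTower.algebraMap_eq S K Ω]
    exact ι.injective.comp (FaithfulSMul.algebraMap_injective S K)
  let i1 : Algebra k Ω := ((algebraMap κ Ω).comp (algebraMap k κ)).toAlgebra
  have i2 : IsScalarTower k κ Ω := IsScalarTower.of_algebraMap_eq fun _ => rfl
  obtain ⟨x, hB⟩ := exists_base (k := κ) hinj w hres hdim
    (fun s => by rw [IsScalarTower.algebraMap_apply S K Ω]; exact (hV _).1 (hS s))
    (fun s hs => by rw [IsScalarTower.algebraMap_apply S K Ω]; exact hVpos _ (hmS s hs))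
  obtain ⟨e, -, -, -, -, -, -, -, -, -, -, htr⟩ := exists_primitive s hs hsep V
  have hk : ∀ c : κ, algebraMap κ K c ∈ V := by
    intro c
    rw [IsScalarTower.algebraMap_apply κ S K]
    exact hS _
  have hwc : 0 < w (ι c') := by rw [hw c' hc0]; exact hcV
  have hN' : c + (m + e) ≤ N := by
    rw [htr] at hN
    have : e + (c + m) ≤ N := by exact_mod_cast hN
    omega
  refine lurV_of_base s hs hsep V w hV hS ⟨c', hc0, hwc⟩ _ x hB htr
    fun t q K₀ K' B α u H ht hKK' hset => ?_
  exact lus_bb (k := k) hc hN' hBB hset ⟨ι c', hKK' ⟨c', rfl⟩, (hι0 c').2 hc0, hwc⟩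

theorem lurV_complete_bb (p : ℕ) (hp : p.Prime) {k C K : Type u} [Field k] [PerfectField k]
    [CommRing C] [IsDomain C] [CharP C p] [IsLocalRing C] [IsNoetherianRing C]
    [IsAdicComplete (maximalIdeal C) C] (ι : k →+* ResidueField C)
    (hfg : @Algebra.EssFiniteType k (ResidueField C) _ _ ι.toAlgebra) [Field K] [Algebra C K]
    [IsFractionRing C K] {m : ℕ} (hdim : ringKrullDim C = m) (V : ValuationSubring K)
    (hR : IsR1 V) (hC : ∀ c : C, algebraMap C K c ∈ V)
    (hmC : ∀ c ∈ maximalIdeal C, V.valuation (algebraMap C K c) < 1)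
    (hm : maximalIdeal C ≠ ⊥) {c N : ℕ}
    (hc : @Algebra.trdeg k (ResidueField C) _ _ ι.toAlgebra ≤ (c : Cardinal))
    (hN : c + m ≤ N) (hBB : BB k N) : LUrV C V := by
  classical
  have i0 : Fact p.Prime := ⟨hp⟩
  let κ : Type u := ResidueField C
  have iκ : CharP κ p := (CharP.charP_iff_prime_eq_zero hp).2 (by
    have h1 : (p : C) = 0 := CharP.cast_eq_zero C p
    have h2 := congrArg (residue C) h1
    rwa [map_natCast, map_zero] at h2)
  have ik : CharP k p := (RingHom.charP_iff ι ι.injective p).2 iκ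
  obtain ⟨σk, hσk⟩ := exists_lift_perfect p C k ι
  let i1 : Algebra k C := σk.toAlgebra
  -- the two algebra structures of the residue field over `k`
  have i2 : (ι.toAlgebra : Algebra k (ResidueField C)) =
      (inferInstance : Algebra k (ResidueField C)) := by
    refine Algebra.algebra_ext _ _ fun a => ?_
    exact (hσk a).symm
  have i3 : Algebra.EssFiniteType k (ResidueField C) := by
    rw [i2] at hfg
    exact hfg
  have hc' : Algebra.trdeg k (ResidueField C) ≤ (c : Cardinal) := by
    rw [i2] at hc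
    exact hc
  obtain ⟨σ, hσ, hσk', S, hσS, hfin, ⟨hreg, hSdim, hmax⟩, hsep⟩ :=
    exists_separable_base2 p k C hm hdim K
  have j1 : FaithfulSMul S C := by
    rw [faithfulSMul_iff_algebraMap_injective]
    exact Subtype.val_injective
  have j2 : FaithfulSMul S K := by
    rw [faithfulSMul_iff_algebraMap_injective, IsScalarTower.algebraMap_eq S C K]
    exact (IsFractionRing.injective C K).comp Subtype.val_injective
  let L := FractionRing S
  let j3 : Algebra L K := FractionRing.liftAlgebra S K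
  have j4 : IsScalarTower S L K := FractionRing.isScalarTower_liftAlgebra S K
  have j5 : FiniteDimensional L K := finiteDimensional_frac S C K
  have j6 : Algebra.IsSeparable L K := hsep j3 j4
  let j0 : Algebra κ S := (σ.codRestrict S hσS).toAlgebra
  let j7 : Algebra κ K := ((algebraMap C K).comp σ).toAlgebra
  have j8 : IsScalarTower κ S K := IsScalarTower.of_algebraMap_eq fun _ => rfl
  have j9 : Algebra.EssFiniteType C K := Algebra.EssFiniteType.of_isLocalization _ (nonZeroDivisors C)
  have j10 : Algebra.EssFiniteType S K := Algebra.EssFiniteType.comp S C K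
  have j11 : Algebra.IsAlgebraic L K := inferInstance
  have j12 : Algebra.IsAlgebraic S K :=
    (IsFractionRing.comap_isAlgebraic_iff (A := S) (C := K)).2 j11
  have hempty : IsTranscendenceBasis L ((↑) : (∅ : Set K) → K) := by
    obtain ⟨s, hs⟩ := exists_isTranscendenceBasis L K
    have h1 : IsEmpty s := hs.isEmpty_iff_isAlgebraic.2 j11
    have h2 : s = ∅ := Set.isEmpty_coe_sort.1 h1
    rwa [h2] at hs
  have hsep' : Algebra.IsSeparable (IntermediateField.adjoin L (∅ : Set K)) K :=
    Algebra.isSeparable_tower_top_of_isSeparable L _ K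
  have htr : Algebra.trdeg S K = 0 := trdeg_eq_zero_iff.2 j12
  have hS : LUrV S V := by
    refine lurV_bb (k := k) (κ := κ) (S := S) (K := K) ?_ hSdim ∅ hempty hsep' V hR
      (fun s => hC s) (fun s hs => hmC _ ((hmax s).1 hs)) hc' (N := N) ?_ hBB
    · intro s
      refine ⟨residue C s, (hmax _).2 ?_⟩
      rw [← residue_eq_zero_iff]
      change residue C ((s : C) - σ (residue C (s : C))) = 0
      rw [map_sub, hσ, sub_self]
    · rw [htr, zero_add]
      exact_mod_cast hN
  exact lurV_of_finite (S := S) V hS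

end Pool.Agent.ALLh81
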