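import Pool.Agent.Lib.ALL_h81.BB
import Pool.Agent.Lib.LUZ.Stmt

/-!
# Log uniformization of real valuations of noetherian domains of characteristic `p`, with the
# function field case as a black box
-/

set_option autoImplicit false

namespace Pool.Agent.ALLh81

open IsLocalRing
open Pool.Agent.H15JM (RVal)
open Pool.Agent.LU1 (VPos)
open Pool.Agent.LU2 (IsR1 IndVal IndRes Rel vring rel_vring)
open Pool.Agent.LU2G (centerRing chart compRank LogUniformizable)
open Pool.Agent.LUC
open Pool.Agent.LUZ

universe u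

theorem lus_local_bb (p : ℕ) (hp : p.Prime) {R K k : Type u} [CommRing R] [IsDomain R]
    [IsLocalRing R] [IsNoetherianRing R] [Field k] [PerfectField k] (ι : k →+* ResidueField R)
    (hfg : @Algebra.EssFiniteType k (ResidueField R) _ _ ι.toAlgebra)
    [Field K] [Algebra R K] [IsFractionRing R K] {V : ValuationSubring K}
    {v : RVal K} (hR : IsR1 V) (hrel : Rel V v) (hge : ∀ r : R, algebraMap R K r ∈ V)
    (hpos : ∀ r ∈ maximalIdeal R, V.valuation (algebraMap R K r) < 1)
    (hm : maximalIdeal R ≠ ⊥) (hp0 : (p : R) = 0)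
    (hreg : ∀ Q : Ideal (Hat R), ∀ _ : Q.IsPrime, Q.comap (algebraMap R (Hat R)) = ⊥ →
      IsRegularLocalRing (Localization.AtPrime Q))
    (H : Ideal (Hat R)) (hH : ∀ f, f ∈ H ↔ f ∈ impl (K := K) v) {m : ℕ}
    (hdim : ringKrullDim (Hat R ⧸ H) = m) {c N : ℕ}
    (hc : @Algebra.trdeg k (ResidueField R) _ _ ι.toAlgebra ≤ (c : Cardinal))
    (hN : c + m ≤ N) (hBB : BB k N) :
    ∃ (Ω : Type u) (_ : Field Ω) (w : RVal Ω) (j : K →+* Ω), (∀ x : K, x ≠ 0 → w (j x) = v x) ∧
      LUs w (j.comp (algebraMap R K)).range j.fieldRange := by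
  obtain ⟨Ω, i0, w, π, j, h, hred⟩ := exists_HD hrel hge hpos hm hreg H hH
  refine ⟨Ω, i0, w, j, h.val, hred ?_⟩
  have i1 : IsLocalRing π.range := range_isLocal π
  have i2 : IsNoetherianRing π.range := range_isNoetherian π
  have i3 : IsAdicComplete (maximalIdeal π.range) π.range := range_isAdicComplete π
  have i5 : IsFractionRing π.range Ω := h.isFractionRing
  have hdim' : ringKrullDim π.range = m := by
    rw [range_dim, h.ker, hdim]
  have hR' : IsR1 (vring w) :=
    LCD.isR1_of_real (fun f => (rel_vring w).mem_iff f) (h.isR1 hrel hR)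
  have hC : ∀ c : π.range, algebraMap π.range Ω c ∈ vring w := by
    rintro ⟨_, f, rfl⟩
    exact h.ge f
  have hmC : ∀ c ∈ maximalIdeal π.range, (vring w).valuation (algebraMap π.range Ω c) < 1 := by
    intro c hc
    rw [(rel_vring w).lt_one_iff']
    exact h.pos c hc
  have hinj : Function.Injective (π.rangeRestrict.comp (algebraMap R (Hat R))) := by
    intro x y hxy
    have h1 : π (algebraMap R (Hat R) x) = π (algebraMap R (Hat R) y) := congrArg Subtype.val hxy
    rw [h.comp, h.comp] at h1
    exact IsFractionRing.injective R K (j.injective h1)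
  obtain ⟨e, he⟩ := exists_residue_equiv π
  have i6 : CharP π.range p := (CharP.charP_iff_prime_eq_zero hp).2 (by
    have h2 := congrArg (π.rangeRestrict.comp (algebraMap R (Hat R))) hp0
    rwa [map_natCast, map_zero] at h2)
  have hm' : maximalIdeal π.range ≠ ⊥ := by
    obtain ⟨t, ht, ht0⟩ := Submodule.exists_mem_ne_zero_of_ne_bot hm
    intro h0
    have h1 := HD.mem_max (π := π) t ht
    rw [h0, Ideal.mem_bot] at h1
    exact ht0 (hinj (h1.trans (map_zero _).symm))
  let j1 : Algebra k (ResidueField R) := ι.toAlgebra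
  let j2 : Algebra k (ResidueField π.range) := (e.toRingHom.comp ι).toAlgebra
  let E : ResidueField R ≃ₐ[k] ResidueField π.range := AlgEquiv.ofRingEquiv (f := e) fun _ => rfl
  have j3 : Algebra.EssFiniteType k (ResidueField R) := hfg
  refine lurV_complete_bb p hp (e.toRingHom.comp ι)
    ((Algebra.EssFiniteType.iff_of_algEquiv (R := k) E).1 j3) hdim' (vring w) hR' hC hmC hm' ?_ hN
    hBB
  refine le_trans (le_of_eq ?_) hc
  exact E.trdeg_eq.symm

theorem lus_local_bb' (p : ℕ) (hp : p.Prime) {R K k : Type u} [CommRing R] [IsDomain R]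
    [IsLocalRing R] [IsNoetherianRing R] [Field k] [PerfectField k] (ι : k →+* ResidueField R)
    (hfg : @Algebra.EssFiniteType k (ResidueField R) _ _ ι.toAlgebra)
    [Field K] [Algebra R K] [IsFractionRing R K] {V : ValuationSubring K}
    {v : RVal K} (hR : IsR1 V) (hrel : Rel V v) (hge : ∀ r : R, algebraMap R K r ∈ V)
    (𝔪 : Ideal R) (h𝔪 : 𝔪 = maximalIdeal R)
    (hpos : ∀ r ∈ 𝔪, V.valuation (algebraMap R K r) < 1)
    (hm : 𝔪 ≠ ⊥) (hp0 : (p : R) = 0)
    (hreg : ∀ Q : Ideal (AdicCompletion 𝔪 R), ∀ _ : Q.IsPrime,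
      Q.comap (algebraMap R (AdicCompletion 𝔪 R)) = ⊥ →
      IsRegularLocalRing (Localization.AtPrime Q)) {m : ℕ}
    (hdim : ringKrullDim (AdicCompletion 𝔪 R ⧸ Ideal.span (implV (K := K) V 𝔪)) = m) {c N : ℕ}
    (hc : @Algebra.trdeg k (ResidueField R) _ _ ι.toAlgebra ≤ (c : Cardinal))
    (hN : c + m ≤ N) (hBB : BB k N) :
    ∃ (Ω : Type u) (_ : Field Ω) (w : RVal Ω) (j : K →+* Ω), (∀ x : K, x ≠ 0 → w (j x) = v x) ∧
      LUs w (j.comp (algebraMap R K)).range j.fieldRange := by
  subst h𝔪
  refine lus_local_bb p hp ι hfg hR hrel hge hpos hm hp0 hreg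
    (Ideal.span (implV (K := K) V (maximalIdeal R))) (fun f => ?_) hdim hc hN hBB
  obtain ⟨Ω, i0, w, π, j, -, -, -, -, h5, -⟩ := exists_hat (R := R) v
    (fun r => (hrel.mem_iff _).1 (hge r)) (fun r hr => (hrel.lt_one_iff' _).1 (hpos r hr)) hm
  rw [implV_eq hrel hR]
  have h6 : (impl v : Set (Hat R)) = (RingHom.ker π : Set (Hat R)) := by
    ext g
    rw [SetLike.mem_coe, RingHom.mem_ker, h5]
  rw [h6, Ideal.span_eq]
  rfl

section Final

variable {A : Type} [CommRing A] [IsDomain A] {V : ValuationSubring (FractionRing A)}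

/-- Log uniformization over the local ring of a chart. -/
theorem exists_lus_center_bb (p : ℕ) (hp : p.Prime) (B : Subalgebra A (FractionRing A))
    [IsNoetherianRing B] (hB : ∀ z ∈ B, z ∈ V) (hR : IsR1 V) {v : RVal (FractionRing A)}
    (hrel : Rel V v) (hpA : (p : A) = 0)
    (k : Subfield (ResidueField V)) [PerfectField k] (s : Finset (ResidueField V))
    (hk : Subfield.closure ((k : Set (ResidueField V)) ∪ s) = centerField V B)
    (hreg : ∀ Q : Ideal (CenterCompletion V B), ∀ _ : Q.IsPrime,
      Q.comap (algebraMap (centerRing V B) (CenterCompletion V B)) = ⊥ →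
      IsRegularLocalRing (Localization.AtPrime Q))
    (m : ℕ) (hm : ringKrullDim (CenterCompletion V B ⧸ implicitIdeal V B) = m)
    {c N : ℕ} (hkF : k ≤ centerField V B)
    (hc : @Algebra.trdeg k (centerField V B) _ _ (Subfield.inclusion hkF).toAlgebra ≤
      (c : Cardinal)) (hN : c + m ≤ N) (hBB : BB k N) :
    ∃ (Ω : Type) (_ : Field Ω) (w : RVal Ω) (j : FractionRing A →+* Ω),
      (∀ x : FractionRing A, x ≠ 0 → w (j x) = v x) ∧
      LUs w (j.comp (algebraMap (centerRing V B) (FractionRing A))).range j.fieldRange := by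
  have i1 : IsLocalRing (centerRing V B) := isLocalRing_center hB
  have i2 : IsNoetherianRing (centerRing V B) := isNoetherian_center
  have i3 : IsFractionRing (centerRing V B) (FractionRing A) := isFractionRing_center
  have hpos : ∀ r ∈ centerIdeal V B, V.valuation
      (algebraMap (centerRing V B) (FractionRing A) r) < 1 := by
    intro r hr
    rw [centerIdeal_eq hB] at hr
    exact (mem_max_center hB r).1 hr
  have hmem : ∀ r : centerRing V B, V.valuation (r : FractionRing A) < 1 →
      r ∈ centerIdeal V B := fun r hr => Ideal.subset_span hr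
  have hbot : centerIdeal V B ≠ ⊥ := by
    intro h0
    apply hR.1
    rw [eq_top_iff]
    intro x _
    obtain ⟨a, b, hb, rfl⟩ := IsFractionRing.div_surjective (A := centerRing V B) x
    have hb1 : V.valuation (algebraMap (centerRing V B) (FractionRing A) b) = 1 := by
      refine le_antisymm ((V.valuation_le_one_iff _).2 (centerRing_le hB b)) ?_
      by_contra hcon
      have h1 := hmem b (not_le.1 hcon)
      rw [h0, Ideal.mem_bot] at h1
      exact nonZeroDivisors.ne_zero hb h1
    rw [← V.valuation_le_one_iff, map_div₀, hb1, div_one]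
    exact (V.valuation_le_one_iff _).2 (centerRing_le hB a)
  have hp0 : ((p : ℕ) : centerRing V B) = 0 := by
    have h1 := congrArg (algebraMap A (centerRing V B)) hpA
    rwa [map_natCast, map_zero] at h1
  -- the residue field
  obtain ⟨e, he⟩ := exists_center_residue hB
  let ι : k →+* ResidueField (centerRing V B) := e.symm.toRingHom.comp (Subfield.inclusion hkF)
  have hfg : @Algebra.EssFiniteType k (ResidueField (centerRing V B)) _ _ ι.toAlgebra := by
    let j1 : Algebra k (centerField V B) := (Subfield.inclusion hkF).toAlgebra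
    let j2 : Algebra k (ResidueField (centerRing V B)) := ι.toAlgebra
    have j3 : Algebra.EssFiniteType k (centerField V B) := essFiniteType_of_closure k _ hkF s hk
    exact (Algebra.EssFiniteType.iff_of_algEquiv (R := k)
      (AlgEquiv.ofRingEquiv (f := e.symm) fun _ => rfl)).1 j3
  have hc' : @Algebra.trdeg k (ResidueField (centerRing V B)) _ _ ι.toAlgebra ≤
      (c : Cardinal) := by
    let j1 : Algebra k (centerField V B) := (Subfield.inclusion hkF).toAlgebra
    let j2 : Algebra k (ResidueField (centerRing V B)) := ι.toAlgebra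
    let E : centerField V B ≃ₐ[k] ResidueField (centerRing V B) :=
      AlgEquiv.ofRingEquiv (f := e.symm) fun _ => rfl
    exact le_trans (le_of_eq E.trdeg_eq.symm) hc
  exact lus_local_bb' p hp ι hfg hR hrel (centerRing_le hB) (centerIdeal V B)
    (centerIdeal_eq hB) hpos hbot hp0 hreg hm hc' hN hBB

/-- Log uniformization of valuations of rank one over noetherian domains. -/
theorem logUniformizable_bb (p : ℕ) (hp : p.Prime) (A : Type) [CommRing A] [IsDomain A]
    [IsNoetherianRing A] (V : ValuationSubring (FractionRing A))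
    (hV : ∀ a : A, algebraMap A (FractionRing A) a ∈ V) (hrank : IsCoatom V)
    (hpA : (p : A) = 0) (I : Ideal A) (g : A) (hg : g ∈ I)
    (hg0 : g ≠ 0) (hgmin : ∀ a ∈ I, V.valuation (algebraMap A (FractionRing A) a) ≤
      V.valuation (algebraMap A (FractionRing A) g))
    (k : Subfield (ResidueField V)) [PerfectField k] (s : Finset (ResidueField V))
    (hk : Subfield.closure ((k : Set (ResidueField V)) ∪ s) = centerField V (chart I g))
    (hreg : ∀ Q : Ideal (CenterCompletion V (chart I g)), ∀ _ : Q.IsPrime,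
      Q.comap (algebraMap (centerRing V (chart I g)) (CenterCompletion V (chart I g))) = ⊥ →
      IsRegularLocalRing (Localization.AtPrime Q))
    (m : ℕ)
    (hm : ringKrullDim (CenterCompletion V (chart I g) ⧸ implicitIdeal V (chart I g)) = m)
    {c N : ℕ} (hkF : k ≤ centerField V (chart I g))
    (hc : @Algebra.trdeg k (centerField V (chart I g)) _ _ (Subfield.inclusion hkF).toAlgebra ≤
      (c : Cardinal)) (hN : c + m ≤ N) (hBB : BB k N) :
    LogUniformizable V := by
  classical
  have hR : IsR1 V := by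
    refine ⟨hrank.1, fun W hW => ?_⟩
    rcases hW.eq_or_lt with h1 | h1
    · exact Or.inl h1.symm
    · exact Or.inr (hrank.2 W h1)
  obtain ⟨v, hrel, -⟩ := hR.exists_real
  have hrel : Rel V v := hrel
  have hB : ∀ z ∈ chart I g, z ∈ V := chart_le hV I g hg0 hgmin
  have i0 : IsNoetherianRing (chart I g) := isNoetherian_chart I g
  obtain ⟨Ω, i1, w, j, hval, hLU⟩ := exists_lus_center_bb p hp (chart I g) hB hR hrel hpA k s hk
    hreg m hm hkF hc hN hBB
  let i4 : Algebra (FractionRing A) Ω := j.toAlgebra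
  let i5 : Algebra A Ω := (j.comp (algebraMap A (FractionRing A))).toAlgebra
  have i6 : IsScalarTower A (FractionRing A) Ω := IsScalarTower.of_algebraMap_eq fun _ => rfl
  have hVw : ∀ f : FractionRing A, f ∈ V ↔ w.Ge 0 (algebraMap (FractionRing A) Ω f) := by
    intro f
    rw [hrel.mem_iff]
    constructor
    · intro h1 h0
      have h2 := (map_ne_zero j).1 h0
      change 0 ≤ w (j f)
      rw [hval f h2]
      exact h1 h2
    · intro h1 h0
      rw [← hval f h0]
      exact h1 ((map_ne_zero j).2 h0)
  have hA' : ∀ a ∈ (algebraMap A Ω).range, w.Ge 0 a := by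
    rintro _ ⟨a, rfl⟩
    exact (hVw _).1 (hV a)
  obtain ⟨F, hF, hchart⟩ := exists_chart_eq I g
  have hg' : algebraMap A Ω g ≠ 0 := by
    intro h
    have h1 : algebraMap A (FractionRing A) g = 0 := (map_eq_zero j).1 h
    exact hg0 (IsFractionRing.injective A (FractionRing A) (h1.trans (map_zero _).symm))
  have hv : ∀ a ∈ I, w.Ge (w (algebraMap A Ω g)) (algebraMap A Ω a) := by
    intro a ha
    have h1 : algebraMap A (FractionRing A) g ≠ 0 := fun h =>
      hg0 (IsFractionRing.injective A (FractionRing A) (h.trans (map_zero _).symm))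
    exact (F2.val_le_iff hVw _ h1).1 (hgmin a ha)
  have himg : (fun x => x / algebraMap A Ω g) '' ((F.image (algebraMap A Ω) : Finset Ω) : Set Ω) =
      algebraMap (FractionRing A) Ω '' ((fun a => algebraMap A (FractionRing A) a /
        algebraMap A (FractionRing A) g) '' (F : Set A)) := by
    rw [Finset.coe_image, Set.image_image, Set.image_image]
    refine Set.image_congr fun a _ => ?_
    change _ = j _
    rw [map_div₀]
    rfl
  have hlv : lv w (adj (algebraMap A Ω).range ((fun x => x / algebraMap A Ω g) ''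
      ((F.image (algebraMap A Ω) : Finset Ω) : Set Ω))) =
      (j.comp (algebraMap (centerRing V (chart I g)) (FractionRing A))).range := by
    rw [himg, F2.map_adjoin, ← hchart, F2.map_locV hVw]
    ext x
    constructor
    · rintro ⟨z, hz, rfl⟩
      exact ⟨⟨z, hz⟩, rfl⟩
    · rintro ⟨z, rfl⟩
      exact ⟨z, z.2, rfl⟩
  have hfin : LUs w (algebraMap A Ω).range (algebraMap (FractionRing A) Ω).fieldRange := by
    refine LUs.of_chart hA' (algebraMap A Ω g) ⟨g, rfl⟩ hg' (F.image (algebraMap A Ω)) ?_ ?_
    · intro x hx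
      obtain ⟨a, ha, rfl⟩ := Finset.mem_image.1 hx
      exact ⟨⟨a, rfl⟩, hv a (hF a ha)⟩
    · rw [hlv]
      exact hLU
  exact LUM.logUniformizable_of_LU A A V hV (LUrV.lu (LUs.lurV hVw hV hfin))

end Final

end Pool.Agent.ALLh81
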