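import Pool.Agent.Lib.LUZ.StmtDefs

/-!
# Subfields generated by an algebraically closed field and a finite set
-/

set_option autoImplicit false

namespace Pool.Agent.LUF

/-- The subfield `F` of the field `L` is generated by an algebraically closed field `k` and by a
finite set, and it has transcendence degree `c` over `k`. -/
def ClosedGenerated {L : Type} [Field L] (F : Subfield L) (c : ℕ) : Prop :=
  ∃ (k : Subfield L) (s : Finset L) (hk : k ≤ F), IsAlgClosed k ∧
    Subfield.closure ((k : Set L) ∪ s) = F ∧
    @Algebra.trdeg k F _ _ (Subfield.inclusion hk).toAlgebra = c

end Pool.Agent.LUF
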