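import Pool.Agent.Lib.ALL_h81.Formal
import Pool.Agent.Lib.ALL_h81.StmtDefs
import Pool.Agent.Lib.ALL_h26.Comp

/-!
# Project ALL, final form: valuations of rank one of noetherian domains of characteristic `p`
-/

set_option autoImplicit false

namespace Pool.Agent.ALLh81

open IsLocalRing
open Pool.Agent.LU2 (IsR1)
open Pool.Agent.LU2G (centerRing chart LogUniformizable)
open Pool.Agent.LUZ (chart_le CenterCompletion)

universe u

theorem BB_of_full {b : ℕ → ℕ} (hb : Monotone b) {p : ℕ} {k : Type u} [Field k]
    (h : ALLF.RealCaseFull b p k) {N : ℕ} (hN : b N < p) : BB k N := by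
  intro K _ _ hK htr V hk hR
  obtain ⟨m, hm⟩ := Cardinal.lt_aleph0.1 (htr.trans_lt Cardinal.natCast_lt_aleph0)
  rw [hm] at htr
  have hmN : m ≤ N := by exact_mod_cast htr
  exact h K hK V hk hR m hm ((hb hmN).trans_lt hN)

/-- Log uniformization of the valuations of rank one of noetherian domains of characteristic
`p`. -/
theorem logUniformizable_all {b : ℕ → ℕ} (hb : Monotone b) (p : ℕ) (hp : p.Prime)
    (hreal : ∀ (k : Type) [Field k] [IsAlgClosed k] [CharP k p], ALLF.RealCaseFull b p k)
    (A : Type) [CommRing A] [IsDomain A] [IsNoetherianRing A] [CharP A p]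
    (V : ValuationSubring (FractionRing A))
    (hV : ∀ a : A, algebraMap A (FractionRing A) a ∈ V) (hrank : IsCoatom V)
    (I : Ideal A) (g : A) (hg : g ∈ I)
    (hg0 : g ≠ 0) (hgmin : ∀ a ∈ I, V.valuation (algebraMap A (FractionRing A) a) ≤
      V.valuation (algebraMap A (FractionRing A) g))
    (R : Subalgebra A (FractionRing A)) (hR : R = centerRing V (chart I g)) (c : ℕ)
    (hk : LUF.ClosedGenerated (LUF.centerField R V) c)
    (hreg : LUF.RegularFormalFibre R V) (n : ℕ)
    (hn : LUF.formalDim R V = n) (hbound : b (n + c) < p) :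
    LogUniformizable V := by
  subst hR
  have hB : ∀ z ∈ chart I g, z ∈ V := chart_le hV I g hg0 hgmin
  obtain ⟨k, s, hkF, halg, hks, hc⟩ := hk
  have e := LUZ.centerField_centerRing hB
  have hpA : (p : A) = 0 := CharP.cast_eq_zero A p
  have hp0 : (p : FractionRing A) = 0 := by
    have h1 := congrArg (algebraMap A (FractionRing A)) hpA
    rwa [map_natCast, map_zero] at h1
  have hpV : (p : V) = 0 := Subtype.ext (by
    push_cast
    exact hp0)
  have hpL : (p : ResidueField V) = 0 := by
    have h1 := congrArg (residue V) hpV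
    rwa [map_natCast, map_zero] at h1
  have hchar : CharP k p := (CharP.charP_iff_prime_eq_zero hp).2 (Subtype.ext (by
    push_cast
    exact hpL))
  have hBB : BB k (n + c) := BB_of_full hb (hreal k) hbound
  revert hkF hks hc
  rw [e]
  intro hkF hks hc
  exact logUniformizable_bb p hp A V hV hrank hpA I g hg hg0 hgmin k s hks hreg n hn hkF
    (le_of_eq hc) (Nat.add_comm c n).le hBB

end Pool.Agent.ALLh81
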